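import Mathlib

/-!
A sigma-closed topological Ramsey space whose pseudointersection number is `ℵ₀` while its tower
number is uncountable.

The members of the space are infinite sets of natural numbers carrying a label. A label is either
a natural number `k` (then `k` lies below the whole set) or a symbol `∞ₙ`. The label `k` lies below
`∞ₙ` exactly when `k ≠ n`. A labelled set is below another one when the underlying sets are included
and the labels are related.
-/

namespace Pool.Agent.Results.MP_fdc1ac_lc.CountablePseudo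

open Cardinal

/-! ### Topological Ramsey spaces -/

/-- The basic set `[a, B]` of all `A ≤ B` having `a` as an approximation. -/
def basic {R AR : Type} (le : R → R → Prop) (r : ℕ → R → AR) (a : AR) (B : R) : Set R :=
  {A | le A B ∧ ∃ n, r n A = a}

/-- `a ⊑ b`: for some `A` and `k ≤ n`, `a = r k A` and `b = r n A`. -/
def IsInitial {R AR : Type} (r : ℕ → R → AR) (a b : AR) : Prop :=
  ∃ (A : R) (k n : ℕ), k ≤ n ∧ r k A = a ∧ r n A = b

/-- `depth_B(a) = n < ∞`: `n` is least with `a ≤_fin r n B`. -/
def Depth {R AR : Type} (r : ℕ → R → AR) (lefin : AR → AR → Prop) (B : R) (a : AR) (n : ℕ) :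
    Prop :=
  IsLeast {m | lefin a (r m B)} n

/-- Axiom A.1. -/
structure AxiomA1 {R AR : Type} (r : ℕ → R → AR) : Prop where
  zero : ∀ A B, r 0 A = r 0 B
  ne : ∀ A B, A ≠ B → ∃ n, r n A ≠ r n B
  eq : ∀ A B n m, r n A = r m B → n = m ∧ ∀ k < n, r k A = r k B

/-- Axiom A.2 for a given `≤_fin`. -/
structure AxiomA2 {R AR : Type} (le : R → R → Prop) (r : ℕ → R → AR)
    (lefin : AR → AR → Prop) : Prop where
  refl : ∀ a, lefin a a
  trans : ∀ a b c, lefin a b → lefin b c → lefin a c
  finite : ∀ b, {a | lefin a b}.Finite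
  le_iff : ∀ A B, le A B ↔ ∀ n, ∃ m, lefin (r n A) (r m B)
  initial : ∀ a b c, IsInitial r a b → lefin b c → ∃ d, IsInitial r d c ∧ lefin a d

/-- Axiom A.3 for a given `≤_fin`. -/
structure AxiomA3 {R AR : Type} (le : R → R → Prop) (r : ℕ → R → AR)
    (lefin : AR → AR → Prop) : Prop where
  nonempty : ∀ a B n, Depth r lefin B a n → ∀ A ∈ basic le r (r n B) B,
    (basic le r a A).Nonempty
  amalg : ∀ a B n, Depth r lefin B a n → ∀ A, le A B → (basic le r a A).Nonempty →
    ∃ A' ∈ basic le r (r n B) B, (basic le r a A').Nonempty ∧ basic le r a A' ⊆ basic le r a A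

/-- Axiom A.4 (pigeonhole) for a given `≤_fin`; here `j = |a|`. -/
def AxiomA4 {R AR : Type} (le : R → R → Prop) (r : ℕ → R → AR)
    (lefin : AR → AR → Prop) : Prop :=
  ∀ a B n j, Depth r lefin B a n → a ∈ Set.range (r j) →
    ∀ O : Set AR, O ⊆ Set.range (r (j + 1)) → ∃ A ∈ basic le r (r n B) B,
      (r (j + 1)) '' (basic le r a A) ⊆ O ∨ (r (j + 1)) '' (basic le r a A) ⊆ Oᶜ

/-- `(R, ≤, r)` is a topological Ramsey space, `AR` being its set of approximations: `≤` is a
quasi-order on the nonempty set `R`, every element of `AR` is an approximation `r n A`, the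
axioms A.1-A.4 hold, and `R` is closed in the product of copies of the discrete space `AR`. -/
structure IsTopologicalRamseySpace {R AR : Type} (le : R → R → Prop) (r : ℕ → R → AR) :
    Prop where
  nonempty : Nonempty R
  refl : ∀ A, le A A
  trans : ∀ A B C, le A B → le B C → le A C
  surj : ∀ a : AR, ∃ n A, r n A = a
  a1 : AxiomA1 r
  a234 : ∃ lefin : AR → AR → Prop,
    AxiomA2 le r lefin ∧ AxiomA3 le r lefin ∧ AxiomA4 le r lefin
  closed : @IsClosed (ℕ → AR) (@Pi.topologicalSpace ℕ (fun _ => AR) (fun _ => ⊥))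
    (Set.range fun (A : R) (n : ℕ) => r n A)

/-! ### Separative quotients -/

/-- The separative relation: every `z ≤ x` is compatible with `y`. -/
def sepLE {R : Type} (le : R → R → Prop) (x y : R) : Prop :=
  ∀ z, le z x → ∃ w, le w z ∧ le w y

/-- The underlying set of the separative quotient. -/
def SepQuot {R : Type} (le : R → R → Prop) : Type :=
  Quot (fun x y : R => sepLE le x y ∧ sepLE le y x)

/-- The order of the separative quotient. -/
def sepQuotLE {R : Type} (le : R → R → Prop) (a b : SepQuot le) : Prop :=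
  ∃ x y : R, Quot.mk _ x = a ∧ Quot.mk _ y = b ∧ sepLE le x y

/-- `(R, ≤, ≤*, r)` is a sigma-closed topological Ramsey space. -/
structure IsSigmaClosedTRS {R AR : Type} (le leStar : R → R → Prop) (r : ℕ → R → AR) :
    Prop where
  trs : IsTopologicalRamseySpace le r
  star_refl : ∀ A, leStar A A
  star_trans : ∀ A B C, leStar A B → leStar B C → leStar A C
  coarsens : ∀ A B, le A B → leStar A B
  sigma_closed : ∀ f : ℕ → R, (∀ n, leStar (f (n + 1)) (f n)) → ∃ Y, ∀ n, leStar Y (f n)
  sep_iso : Nonempty (sepQuotLE le ≃r sepQuotLE leStar)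

/-! ### The two cardinals -/

/-- `Y` is a pseudointersection of `F`. -/
def IsPseudo {R : Type} (leStar : R → R → Prop) (F : Set R) (Y : R) : Prop :=
  ∀ X ∈ F, leStar Y X

/-- Every finite subfamily of `F` has a pseudointersection. -/
def SFIP {R : Type} (leStar : R → R → Prop) (F : Set R) : Prop :=
  ∀ G : Set R, G.Finite → G ⊆ F → ∃ Y, IsPseudo leStar G Y

/-- `F` is a tower: linearly ordered by `≥*` without pseudointersection. -/
def IsTower {R : Type} (leStar : R → R → Prop) (F : Set R) : Prop :=
  (∀ X ∈ F, ∀ Y ∈ F, leStar X Y ∨ leStar Y X) ∧ ¬ ∃ Y, IsPseudo leStar F Y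

/-- The pseudointersection number. -/
noncomputable def pR {R : Type} (leStar : R → R → Prop) : Cardinal :=
  sInf {κ | ∃ F : Set R, #F = κ ∧ SFIP leStar F ∧ ¬ ∃ Y, IsPseudo leStar F Y}

/-- The tower number. -/
noncomputable def tR {R : Type} (leStar : R → R → Prop) : Cardinal :=
  sInf {κ | ∃ F : Set R, #F = κ ∧ IsTower leStar F}

/-! ### Initial segments of infinite sets of naturals -/

/-- The set of the first `n` elements of `A`. -/
noncomputable def init (A : Set ℕ) (n : ℕ) : Finset ℕ :=
  (Finset.range n).image (Nat.nth (· ∈ A))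

theorem init_subset {A : Set ℕ} (hA : A.Infinite) (n : ℕ) : (init A n : Set ℕ) ⊆ A := by
  intro x hx
  simp only [init, Finset.coe_image, Set.mem_image, Finset.coe_range, Set.mem_Iio] at hx
  obtain ⟨i, -, rfl⟩ := hx
  exact Nat.nth_mem_of_infinite hA i

theorem init_card {A : Set ℕ} (hA : A.Infinite) (n : ℕ) : (init A n).card = n := by
  rw [init, Finset.card_image_of_injective _ (Nat.nth_injective (p := (· ∈ A)) hA), Finset.card_range]

theorem init_initial {A : Set ℕ} (hA : A.Infinite) (n : ℕ) {x y : ℕ} (hx : x ∈ A)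
    (hy : y ∈ init A n) (hxy : x ≤ y) : x ∈ init A n := by
  classical
  simp only [init, Finset.mem_image, Finset.mem_range] at hy ⊢
  obtain ⟨i, hi, rfl⟩ := hy
  obtain ⟨j, hj⟩ : ∃ j, Nat.nth (· ∈ A) j = x := by
    have := Nat.range_nth_of_infinite (p := (· ∈ A)) hA
    have hx' : x ∈ Set.range (Nat.nth (· ∈ A)) := by
      rw [this]; exact hx
    exact hx'
  refine ⟨j, lt_of_le_of_lt ?_ hi, hj⟩
  rw [← hj] at hxy
  exact (Nat.nth_strictMono hA).le_iff_le.1 hxy

theorem mem_init_succ {A : Set ℕ} (hA : A.Infinite) {x : ℕ} (hx : x ∈ A) {n : ℕ} (hn : x < n) :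
    x ∈ init A n := by
  classical
  have : x ∈ Set.range (Nat.nth (· ∈ A)) := by
    rw [Nat.range_nth_of_infinite (p := (· ∈ A)) hA]; exact hx
  obtain ⟨j, hj⟩ := this
  simp only [init, Finset.mem_image, Finset.mem_range]
  refine ⟨j, lt_of_le_of_lt ?_ hn, hj⟩
  rw [← hj]
  exact (Nat.nth_strictMono hA).le_apply

theorem init_unique {A : Set ℕ} (hA : A.Infinite) {s : Finset ℕ} (hs : (s : Set ℕ) ⊆ A)
    (hi : ∀ x ∈ A, ∀ y ∈ s, x ≤ y → x ∈ s) : init A s.card = s := by
  classical
  symm
  apply Finset.eq_of_subset_of_card_le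
  · intro y hy
    have hyA : y ∈ A := hs hy
    have : y ∈ Set.range (Nat.nth (· ∈ A)) := by
      rw [Nat.range_nth_of_infinite (p := (· ∈ A)) hA]; exact hyA
    obtain ⟨j, hj⟩ := this
    simp only [init, Finset.mem_image, Finset.mem_range]
    refine ⟨j, ?_, hj⟩
    have h1 : (Finset.range (j + 1)).image (Nat.nth (· ∈ A)) ⊆ s := by
      intro x hx
      simp only [Finset.mem_image, Finset.mem_range] at hx
      obtain ⟨i, hij, rfl⟩ := hx
      refine hi _ (Nat.nth_mem_of_infinite hA i) y hy ?_
      rw [← hj]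
      exact (Nat.nth_strictMono hA).monotone (Nat.lt_succ_iff.1 hij)
    have h2 := Finset.card_le_card h1
    rw [Finset.card_image_of_injective _ (Nat.nth_injective (p := (· ∈ A)) hA), Finset.card_range] at h2
    exact h2
  · rw [init_card hA]

theorem init_mono (A : Set ℕ) {m n : ℕ} (h : m ≤ n) : init A m ⊆ init A n := by
  intro x hx
  simp only [init, Finset.mem_image, Finset.mem_range] at hx ⊢
  obtain ⟨i, hi, rfl⟩ := hx
  exact ⟨i, hi.trans_le h, rfl⟩

theorem init_eq_of_init_eq {A B : Set ℕ} (hA : A.Infinite) (hB : B.Infinite) {n k : ℕ}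
    (h : init A n = init B n) (hk : k ≤ n) : init A k = init B k := by
  have h1 : init A (init B k).card = init B k := by
    apply init_unique hA
    · intro x hx
      have : x ∈ init B n := init_mono B hk hx
      rw [← h] at this
      exact init_subset hA n this
    · intro x hx y hy hxy
      have hy2 : y ∈ init A n := by rw [h]; exact init_mono B hk hy
      have hx2 : x ∈ init A n := init_initial hA n hx hy2 hxy
      rw [h] at hx2
      exact init_initial hB k (init_subset hB n hx2) hy hxy
  rwa [init_card hB] at h1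

/-! ### Labels -/

/-- Labels: `inl k` is the natural number `k`, and `inr n` is the symbol `∞ₙ`. -/
abbrev Label : Type := ℕ ⊕ ℕ

/-- The order of labels. -/
def labLE : Label → Label → Prop
  | Sum.inl k, Sum.inl l => k = l
  | Sum.inl k, Sum.inr n => k ≠ n
  | Sum.inr _, Sum.inl _ => False
  | Sum.inr m, Sum.inr n => m = n

theorem labLE_refl (l : Label) : labLE l l := by
  cases l <;> simp [labLE]

theorem labLE_trans {a b c : Label} (h : labLE a b) (h' : labLE b c) : labLE a c := by
  rcases a with a | a <;> rcases b with b | b <;> rcases c with c | c <;>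
    simp_all [labLE]

/-- `k` is below the set `A`, if the label is `k`. -/
def Below (l : Label) (A : Set ℕ) : Prop := ∀ k, l = Sum.inl k → ∀ x ∈ A, k < x

/-- The members of the space. -/
structure Pt : Type where
  lab : Label
  carrier : Set ℕ
  infinite : carrier.Infinite
  below : Below lab carrier

theorem Pt.ext' {A B : Pt} (h1 : A.lab = B.lab) (h2 : A.carrier = B.carrier) : A = B := by
  cases A; cases B; simp_all

/-- The order of the space. -/
def ptLE (A B : Pt) : Prop := labLE A.lab B.lab ∧ A.carrier ⊆ B.carrier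

/-- The coarser order of the space. -/
def ptLEStar (A B : Pt) : Prop := labLE A.lab B.lab ∧ (A.carrier \ B.carrier).Finite

/-- Raw approximations. -/
noncomputable def rRaw (n : ℕ) (A : Pt) : Option (Label × Finset ℕ) :=
  if n = 0 then none else some (A.lab, init A.carrier n)

/-- The set of all approximations. -/
def Approx : Type := {a : Option (Label × Finset ℕ) // ∃ n A, rRaw n A = a}

/-- The approximation map. -/
noncomputable def apx (n : ℕ) (A : Pt) : Approx := ⟨rRaw n A, n, A, rfl⟩

theorem apx_eq_iff {n m : ℕ} {A B : Pt} : apx n A = apx m B ↔ rRaw n A = rRaw m B :=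
  ⟨fun h => congrArg Subtype.val h, fun h => Subtype.ext h⟩

theorem rRaw_zero (A : Pt) : rRaw 0 A = none := by simp [rRaw]

theorem rRaw_pos {n : ℕ} (hn : n ≠ 0) (A : Pt) : rRaw n A = some (A.lab, init A.carrier n) := by
  simp [rRaw, hn]

/-- The finite order on raw approximations. -/
def finRaw : Option (Label × Finset ℕ) → Option (Label × Finset ℕ) → Prop
  | none, _ => True
  | some _, none => False
  | some (l, s), some (l', t) => labLE l l' ∧ s ⊆ t

/-- The finite order on approximations. -/
def apxLE (a b : Approx) : Prop := finRaw a.1 b.1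

theorem apxLE_iff {n m : ℕ} {A B : Pt} :
    apxLE (apx n A) (apx m B) ↔ finRaw (rRaw n A) (rRaw m B) := Iff.rfl

theorem finRaw_refl (a : Option (Label × Finset ℕ)) : finRaw a a := by
  rcases a with _ | ⟨l, s⟩
  · trivial
  · exact ⟨labLE_refl l, subset_rfl⟩

theorem finRaw_trans {a b c : Option (Label × Finset ℕ)} (h : finRaw a b) (h' : finRaw b c) :
    finRaw a c := by
  rcases a with _ | ⟨l, s⟩
  · trivial
  · rcases b with _ | ⟨l', s'⟩
    · exact h.elim
    · rcases c with _ | ⟨l'', s''⟩
      · exact h'.elim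
      · exact ⟨labLE_trans h.1 h'.1, h.2.trans h'.2⟩

theorem apx_of_raw {a : Approx} {l : Label} {s : Finset ℕ} (h : a.1 = some (l, s)) :
    ∃ A : Pt, A.lab = l ∧ s.Nonempty ∧ init A.carrier s.card = s ∧ Below l s := by
  obtain ⟨n, A, hA⟩ := a.2
  rw [h] at hA
  by_cases hn : n = 0
  · simp [rRaw, hn] at hA
  · rw [rRaw_pos hn] at hA
    have hA' := Option.some.inj hA
    have h1 : A.lab = l := congrArg Prod.fst hA'
    have h2 : init A.carrier n = s := congrArg Prod.snd hA'
    have hc : s.card = n := by rw [← h2, init_card A.infinite]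
    refine ⟨A, h1, ?_, by rw [hc, h2], ?_⟩
    · rw [← Finset.card_pos, hc]; omega
    · intro k hk x hx
      have : x ∈ A.carrier := by
        have hx' : x ∈ (init A.carrier n : Set ℕ) := by rw [h2]; exact hx
        exact init_subset A.infinite n hx'
      exact A.below k (h1.trans hk) x this

/-- Restriction of a point to the elements above `N`, with new label and new stem. -/
theorem exists_pt (l : Label) (s : Finset ℕ) (C : Set ℕ) (hC : C.Infinite) (hl : Below l s)
    (hlC : Below l C) : ∃ A : Pt, A.lab = l ∧ A.carrier = (s : Set ℕ) ∪ C :=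
  ⟨⟨l, (s : Set ℕ) ∪ C, hC.mono Set.subset_union_right, by
    intro k hk x hx
    rcases hx with hx | hx
    · exact hl k hk x hx
    · exact hlC k hk x hx⟩, rfl, rfl⟩

theorem init_stem {A : Pt} {s : Finset ℕ} {C : Set ℕ} (hA : A.carrier = (s : Set ℕ) ∪ C)
    (hs : ∀ x ∈ s, ∀ y ∈ C, x < y) : init A.carrier s.card = s := by
  apply init_unique A.infinite
  · rw [hA]; exact Set.subset_union_left
  · intro x hx y hy hxy
    rw [hA] at hx
    rcases hx with hx | hx
    · exact hx
    · exact absurd (hs y hy x hx) (not_lt.2 hxy)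

theorem tail_infinite {C : Set ℕ} (hC : C.Infinite) (s : Finset ℕ) :
    (C ∩ {x | ∀ y ∈ s, y < x}).Infinite := by
  have : (C \ Set.Iic (s.sup id)).Infinite := hC.sdiff (Set.finite_Iic _)
  refine this.mono ?_
  intro x hx
  refine ⟨hx.1, fun y hy => ?_⟩
  have h1 : y ≤ s.sup id := Finset.le_sup (f := id) hy
  have h2 : ¬ x ≤ s.sup id := hx.2
  omega

theorem a1 : AxiomA1 apx where
  zero A B := by rw [apx_eq_iff, rRaw_zero, rRaw_zero]
  ne A B hAB := by
    by_contra hcon
    push Not at hcon
    apply hAB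
    have h : ∀ n, n ≠ 0 → A.lab = B.lab ∧ init A.carrier n = init B.carrier n := by
      intro n hn
      have := hcon n
      rw [apx_eq_iff, rRaw_pos hn, rRaw_pos hn] at this
      have h' := Option.some.inj this
      exact ⟨congrArg Prod.fst h', congrArg Prod.snd h'⟩
    apply Pt.ext' (h 1 one_ne_zero).1
    ext x
    constructor
    · intro hx
      have := mem_init_succ A.infinite hx (Nat.lt_succ_self x)
      rw [(h (x + 1) (Nat.succ_ne_zero x)).2] at this
      exact init_subset B.infinite _ this
    · intro hx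
      have := mem_init_succ B.infinite hx (Nat.lt_succ_self x)
      rw [← (h (x + 1) (Nat.succ_ne_zero x)).2] at this
      exact init_subset A.infinite _ this
  eq A B n m h := by
    rw [apx_eq_iff] at h
    by_cases hn : n = 0
    · by_cases hm : m = 0
      · exact ⟨hn.trans hm.symm, fun k hk => absurd hk (by omega)⟩
      · rw [hn, rRaw_zero, rRaw_pos hm] at h
        exact absurd h (by simp)
    · by_cases hm : m = 0
      · rw [hm, rRaw_zero, rRaw_pos hn] at h
        exact absurd h (by simp)
      · rw [rRaw_pos hn, rRaw_pos hm] at h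
        have h' := Option.some.inj h
        have hl : A.lab = B.lab := congrArg Prod.fst h'
        have hi : init A.carrier n = init B.carrier m := congrArg Prod.snd h'
        have hnm : n = m := by
          rw [← init_card A.infinite n, hi, init_card B.infinite]
        subst hnm
        refine ⟨rfl, fun k hk => ?_⟩
        rw [apx_eq_iff]
        by_cases hk0 : k = 0
        · rw [hk0, rRaw_zero, rRaw_zero]
        · rw [rRaw_pos hk0, rRaw_pos hk0, hl,
            init_eq_of_init_eq A.infinite B.infinite hi hk.le]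

theorem a2 : AxiomA2 ptLE apx apxLE where
  refl a := finRaw_refl _
  trans a b c h h' := finRaw_trans h h'
  finite b := by
    classical
    -- the finite set of candidates
    rcases hb : b.1 with _ | ⟨l', t⟩
    · apply Set.Finite.subset (Set.finite_singleton b)
      intro a ha
      have ha' : finRaw a.1 b.1 := ha
      rw [hb] at ha'
      rcases h : a.1 with _ | ⟨l, s⟩
      · exact Subtype.ext (h.trans hb.symm)
      · rw [h] at ha'
        exact ha'.elim
    · let cand : Set (Option (Label × Finset ℕ)) :=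
        insert none (Option.some '' (((insert l' (Sum.inl '' (Set.Iic (t.sup id)) : Set Label)) ×ˢ
          ((t.powerset : Set (Finset ℕ))))))
      have hfin : cand.Finite := by
        apply Set.Finite.insert
        apply Set.Finite.image
        apply Set.Finite.prod
        · exact ((Set.finite_Iic _).image _).insert _
        · exact Finset.finite_toSet _
      apply Set.Finite.of_finite_image (f := Subtype.val) _ Subtype.val_injective.injOn
      apply hfin.subset
      rintro _ ⟨a, ha, rfl⟩
      have ha' : finRaw a.1 b.1 := ha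
      rw [hb] at ha'
      rcases h : a.1 with _ | ⟨l, s⟩
      · exact Or.inl rfl
      · rw [h] at ha'
        right
        refine ⟨(l, s), ?_, rfl⟩
        obtain ⟨hl, hst⟩ := ha'
        refine ⟨?_, by simpa using hst⟩
        obtain ⟨A, hA, ⟨x, hx⟩, -, hbel⟩ := apx_of_raw h
        rcases l with k | m
        · right
          refine ⟨k, ?_, rfl⟩
          have h1 : k < x := hbel k rfl x hx
          have h2 : x ≤ t.sup id := Finset.le_sup (f := id) (hst hx)
          exact (h1.le.trans h2 : k ≤ _)
        · left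
          rcases l' with k' | m'
          · exact hl.elim
          · have : m = m' := hl
            rw [this]
  le_iff A B := by
    constructor
    · rintro ⟨hl, hs⟩ n
      by_cases hn : n = 0
      · refine ⟨0, ?_⟩
        show finRaw (rRaw n A) _
        rw [hn, rRaw_zero]
        trivial
      · refine ⟨(init A.carrier n).sup id + 1, ?_⟩
        rw [apxLE_iff, rRaw_pos hn, rRaw_pos (Nat.succ_ne_zero _)]
        refine ⟨hl, ?_⟩
        intro x hx
        apply mem_init_succ B.infinite (hs (init_subset A.infinite n hx))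
        exact Nat.lt_succ_of_le (Finset.le_sup (f := id) hx)
    · intro h
      have h' : ∀ n, n ≠ 0 → ∃ m, labLE A.lab B.lab ∧ init A.carrier n ⊆ init B.carrier m := by
        intro n hn
        obtain ⟨m, hm⟩ := h n
        have hm' : finRaw (rRaw n A) (rRaw m B) := hm
        rw [rRaw_pos hn] at hm'
        by_cases hm0 : m = 0
        · rw [hm0, rRaw_zero] at hm'
          exact hm'.elim
        · rw [rRaw_pos hm0] at hm'
          exact ⟨m, hm'.1, hm'.2⟩
      refine ⟨(h' 1 one_ne_zero).choose_spec.1, ?_⟩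
      intro x hx
      obtain ⟨m, -, hm⟩ := h' (x + 1) (Nat.succ_ne_zero x)
      exact init_subset B.infinite m (hm (mem_init_succ A.infinite hx (Nat.lt_succ_self x)))
  initial a b c hab hbc := by
    refine ⟨c, ?_, ?_⟩
    · obtain ⟨n, A, hA⟩ := c.2
      exact ⟨A, n, n, le_rfl, Subtype.ext hA, Subtype.ext hA⟩
    · obtain ⟨A, k, n, hkn, hk, hn⟩ := hab
      apply finRaw_trans _ hbc
      rw [← hk, ← hn]
      show finRaw (rRaw k A) (rRaw n A)
      by_cases hk0 : k = 0
      · rw [hk0, rRaw_zero]
        trivial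
      · have hn0 : n ≠ 0 := by omega
        rw [rRaw_pos hk0, rRaw_pos hn0]
        exact ⟨labLE_refl _, init_mono _ hkn⟩

/-- Description of the basic sets. -/
theorem mem_basic_iff {a : Approx} {l : Label} {s : Finset ℕ} (ha : a.1 = some (l, s))
    {A C : Pt} : C ∈ basic ptLE apx a A ↔
      ptLE C A ∧ C.lab = l ∧ (s : Set ℕ) ⊆ C.carrier ∧
        (∀ x ∈ C.carrier, ∀ y ∈ s, x ≤ y → x ∈ s) := by
  constructor
  · rintro ⟨h1, n, hn⟩
    have hn' : rRaw n C = some (l, s) := by
      rw [← ha, ← hn]; rfl
    by_cases hn0 : n = 0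
    · rw [hn0, rRaw_zero] at hn'
      exact absurd hn' (by simp)
    · rw [rRaw_pos hn0] at hn'
      have h' := Option.some.inj hn'
      have hl : C.lab = l := congrArg Prod.fst h'
      have hi : init C.carrier n = s := congrArg Prod.snd h'
      refine ⟨h1, hl, ?_, ?_⟩
      · rw [← hi]; exact init_subset C.infinite n
      · intro x hx y hy hxy
        rw [← hi] at hy ⊢
        exact init_initial C.infinite n hx hy hxy
  · rintro ⟨h1, h2, h3, h4⟩
    refine ⟨h1, s.card, ?_⟩
    apply Subtype.ext
    show rRaw _ C = a.1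
    obtain ⟨_, _, hs, _⟩ := apx_of_raw ha
    rw [rRaw_pos (Finset.card_pos.2 hs).ne', ha, h2, init_unique C.infinite h3 h4]

theorem apx_zero_val {a : Approx} (ha : a.1 = none) (B : Pt) : apx 0 B = a := by
  apply Subtype.ext
  rw [ha]
  exact rRaw_zero B

theorem depth_zero {a : Approx} (ha : a.1 = none) {B : Pt} {n : ℕ}
    (h : Depth apx apxLE B a n) : n = 0 := by
  have : n ≤ 0 := h.2 (by
    show finRaw a.1 _
    rw [ha]
    trivial)
  omega

theorem mem_basic_none {a : Approx} (ha : a.1 = none) {A C : Pt} :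
    C ∈ basic ptLE apx a A ↔ ptLE C A :=
  ⟨fun h => h.1, fun h => ⟨h, 0, apx_zero_val ha C⟩⟩

theorem ptLE_refl (A : Pt) : ptLE A A := ⟨labLE_refl _, subset_rfl⟩

theorem ptLE_trans {A B C : Pt} (h : ptLE A B) (h' : ptLE B C) : ptLE A C :=
  ⟨labLE_trans h.1 h'.1, h.2.trans h'.2⟩

/-- What finite depth means for a nonempty approximation. -/
theorem depth_some {a : Approx} {l : Label} {s : Finset ℕ} (ha : a.1 = some (l, s)) {B : Pt}
    {n : ℕ} (h : Depth apx apxLE B a n) :
    n ≠ 0 ∧ labLE l B.lab ∧ s ⊆ init B.carrier n ∧ ∀ x ∈ init B.carrier n, ∃ y ∈ s, x ≤ y := by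
  have h1 : finRaw a.1 (rRaw n B) := h.1
  rw [ha] at h1
  have hn : n ≠ 0 := by
    intro hn
    rw [hn, rRaw_zero] at h1
    exact h1
  rw [rRaw_pos hn] at h1
  refine ⟨hn, h1.1, h1.2, ?_⟩
  intro x hx
  by_contra hcon
  push Not at hcon
  -- then `s` is already contained in the first `n - 1` elements
  obtain ⟨_, _, hs, _⟩ := apx_of_raw ha
  obtain ⟨y0, hy0⟩ := hs
  have hs' : s ⊆ (init B.carrier n).filter (· < x) := by
    intro y hy
    exact Finset.mem_filter.2 ⟨h1.2 hy, hcon y hy⟩
  set u := (init B.carrier n).filter (· < x) with hu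
  have hu1 : init B.carrier u.card = u := by
    apply init_unique B.infinite
    · intro z hz
      exact init_subset B.infinite n (Finset.mem_filter.1 hz).1
    · intro z hz y hy hzy
      have hy' := Finset.mem_filter.1 hy
      exact Finset.mem_filter.2 ⟨init_initial B.infinite n hz hy'.1 hzy, by omega⟩
  have hu2 : u.card < n := by
    have : u.card < (init B.carrier n).card := by
      apply Finset.card_lt_card
      refine ⟨Finset.filter_subset _ _, fun hsub => ?_⟩
      have := (Finset.mem_filter.1 (hsub hx)).2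
      omega
    rwa [init_card B.infinite] at this
  have hu3 : u.card ≠ 0 := by
    have : 0 < u.card := Finset.card_pos.2 ⟨y0, hs' hy0⟩
    omega
  have : n ≤ u.card := h.2 (by
    show finRaw a.1 (rRaw _ B)
    rw [ha, rRaw_pos hu3, hu1]
    exact ⟨h1.1, hs'⟩)
  omega

theorem apx_raw_of_pos {n : ℕ} (hn : n ≠ 0) (B : Pt) :
    (apx n B).1 = some (B.lab, init B.carrier n) := rRaw_pos hn B

theorem below_mono {l : Label} {A B : Set ℕ} (h : Below l B) (hAB : A ⊆ B) : Below l A :=
  fun k hk x hx => h k hk x (hAB hx)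

/-- Elements of the tail of an element above `s ≠ ∅` keep the label condition. -/
theorem below_tail {l : Label} {s : Finset ℕ} (hs : s.Nonempty) (h : Below l s) (C : Set ℕ) :
    Below l (C ∩ {x | ∀ y ∈ s, y < x}) := by
  intro k hk x hx
  obtain ⟨y, hy⟩ := hs
  exact (h k hk y hy).trans (hx.2 y hy)

theorem a3 : AxiomA3 ptLE apx apxLE where
  nonempty a B n hd A hA := by
    rcases ha : a.1 with _ | ⟨l, s⟩
    · exact ⟨A, (mem_basic_none ha).2 (ptLE_refl A)⟩
    · obtain ⟨hn, hl, hsB, hmax⟩ := depth_some ha hd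
      obtain ⟨_, _, hs, _, hbel⟩ := apx_of_raw ha
      rw [mem_basic_iff (apx_raw_of_pos hn B)] at hA
      obtain ⟨hAB, hlab, hsub, hini⟩ := hA
      obtain ⟨C, hC1, hC2⟩ := exists_pt l s (A.carrier ∩ {x | ∀ y ∈ s, y < x})
        (tail_infinite A.infinite s) hbel (below_tail hs hbel _)
      refine ⟨C, (mem_basic_iff ha).2 ⟨⟨?_, ?_⟩, hC1, ?_, ?_⟩⟩
      · rw [hC1, hlab]; exact hl
      · rw [hC2]
        rintro x (hx | hx)
        · exact hsub (hsB hx)
        · exact hx.1
      · rw [hC2]; exact Set.subset_union_left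
      · rw [hC2]
        rintro x (hx | hx) y hy hxy
        · exact hx
        · exact absurd (hx.2 y hy) (by omega)
  amalg a B n hd A hAB hne := by
    rcases ha : a.1 with _ | ⟨l, s⟩
    · have hn := depth_zero ha hd
      refine ⟨A, ?_, hne, subset_rfl⟩
      rw [hn]
      exact ⟨hAB, 0, by rw [apx_eq_iff, rRaw_zero, rRaw_zero]⟩
    · obtain ⟨hn, hl, hsB, hmax⟩ := depth_some ha hd
      obtain ⟨_, _, hs, _, hbel⟩ := apx_of_raw ha
      obtain ⟨D, hD⟩ := hne
      rw [mem_basic_iff ha] at hD
      obtain ⟨hDA, hDl, hDs, hDi⟩ := hD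
      obtain ⟨A', hA1, hA2⟩ := exists_pt B.lab (init B.carrier n)
        (A.carrier ∩ {x | ∀ y ∈ s, y < x}) (tail_infinite A.infinite s)
        (below_mono B.below (init_subset B.infinite n))
        (below_mono B.below (fun x hx => hAB.2 hx.1))
      refine ⟨A', ?_, ?_, ?_⟩
      · rw [mem_basic_iff (apx_raw_of_pos hn B)]
        refine ⟨⟨?_, ?_⟩, hA1, ?_, ?_⟩
        · rw [hA1]; exact labLE_refl _
        · rw [hA2]
          rintro x (hx | hx)
          · exact init_subset B.infinite n hx
          · exact hAB.2 hx.1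
        · rw [hA2]; exact Set.subset_union_left
        · rw [hA2]
          rintro x (hx | hx) y hy hxy
          · exact hx
          · obtain ⟨z, hz, hyz⟩ := hmax y hy
            exact absurd (hx.2 z hz) (by omega)
      · -- nonempty
        obtain ⟨C, hC1, hC2⟩ := exists_pt l s (A.carrier ∩ {x | ∀ y ∈ s, y < x})
          (tail_infinite A.infinite s) hbel (below_tail hs hbel _)
        refine ⟨C, (mem_basic_iff ha).2 ⟨⟨?_, ?_⟩, hC1, ?_, ?_⟩⟩
        · rw [hC1, hA1]; exact hl
        · rw [hC2, hA2]
          exact Set.union_subset_union_left _ (by exact_mod_cast hsB)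
        · rw [hC2]; exact Set.subset_union_left
        · rw [hC2]
          rintro x (hx | hx) y hy hxy
          · exact hx
          · exact absurd (hx.2 y hy) (by omega)
      · intro C hC
        rw [mem_basic_iff ha] at hC ⊢
        obtain ⟨hCA', hCl, hCs, hCi⟩ := hC
        refine ⟨⟨?_, ?_⟩, hCl, hCs, hCi⟩
        · rw [hCl, ← hDl]; exact hDA.1
        · intro x hx
          have hx' := hCA'.2 hx
          rw [hA2] at hx'
          rcases hx' with hx' | hx'
          · obtain ⟨z, hz, hxz⟩ := hmax x hx'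
            have : x ∈ s := hCi x hx z hz hxz
            exact hDA.2 (hDs this)
          · exact hx'.1

theorem a4 : AxiomA4 ptLE apx apxLE := by
  classical
  intro a B n j hd ⟨A0, hA0⟩ O _
  rcases ha : a.1 with _ | ⟨l, s⟩
  · -- the empty approximation
    have hn := depth_zero ha hd
    have hj : j = 0 := by
      by_contra hj
      have : rRaw j A0 = none := by rw [← ha, ← hA0]; rfl
      rw [rRaw_pos hj] at this
      exact absurd this (by simp)
    subst hj
    subst hn
    -- choose a finite label
    obtain ⟨k, hk, hkinf⟩ : ∃ k : ℕ, labLE (Sum.inl k) B.lab ∧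
        (B.carrier ∩ {x | k < x}).Infinite := by
      rcases hB : B.lab with k | m
      · refine ⟨k, labLE_refl _, ?_⟩
        refine B.infinite.mono ?_
        intro x hx
        exact ⟨hx, B.below k hB x hx⟩
      · refine ⟨m + 1, by simp [labLE], ?_⟩
        refine (B.infinite.sdiff (Set.finite_Iic (m + 1))).mono ?_
        intro x hx
        refine ⟨hx.1, ?_⟩
        have : ¬ x ≤ m + 1 := hx.2
        show m + 1 < x
        omega
    -- homogeneous set
    let good : ℕ → Prop := fun x => ∃ o ∈ O, o.1 = some (Sum.inl k, {x})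
    have hdich : ({x ∈ B.carrier ∩ {x | k < x} | good x}).Infinite ∨
        ({x ∈ B.carrier ∩ {x | k < x} | ¬ good x}).Infinite := by
      by_contra hcon
      push Not at hcon
      apply hkinf
      refine (hcon.1.union hcon.2).subset ?_
      intro x hx
      by_cases h : good x
      · exact Or.inl ⟨hx, h⟩
      · exact Or.inr ⟨hx, h⟩
    have hgen : ∀ H : Set ℕ, H.Infinite → H ⊆ B.carrier ∩ {x | k < x} →
        ∃ A ∈ basic ptLE apx (apx 0 B) B, ∀ C ∈ basic ptLE apx a A, ∃ x ∈ H,
          (apx (0 + 1) C).1 = some (Sum.inl k, {x}) := by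
      intro H hH hHB
      refine ⟨⟨Sum.inl k, H, hH, ?_⟩, ?_, ?_⟩
      · intro k' hk' x hx
        have : k = k' := by simpa using hk'
        rw [← this]
        exact (hHB hx).2
      · rw [mem_basic_none (rRaw_zero B)]
        exact ⟨hk, fun x hx => (hHB hx).1⟩
      · intro C hC
        rw [mem_basic_none ha] at hC
        have hCl : C.lab = Sum.inl k := by
          have h1 : labLE C.lab (Sum.inl k) := hC.1
          rcases hc : C.lab with k' | m'
          · rw [hc] at h1
            have : k' = k := h1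
            rw [this]
          · rw [hc] at h1
            exact h1.elim
        have hcard := init_card C.infinite 1
        obtain ⟨x, hx⟩ := Finset.card_eq_one.1 hcard
        refine ⟨x, hC.2 (init_subset C.infinite 1 (by rw [hx]; simp)), ?_⟩
        show rRaw 1 C = _
        rw [rRaw_pos one_ne_zero, hCl, hx]
    rcases hdich with hd1 | hd1
    · obtain ⟨A, hA, hAC⟩ := hgen _ hd1 (Set.sep_subset _ _)
      refine ⟨A, hA, Or.inl ?_⟩
      rintro _ ⟨C, hC, rfl⟩
      obtain ⟨x, hx, hx2⟩ := hAC C hC
      obtain ⟨o, ho, ho2⟩ := hx.2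
      have : apx (0 + 1) C = o := Subtype.ext (hx2.trans ho2.symm)
      rw [this]
      exact ho
    · obtain ⟨A, hA, hAC⟩ := hgen _ hd1 (Set.sep_subset _ _)
      refine ⟨A, hA, Or.inr ?_⟩
      rintro _ ⟨C, hC, rfl⟩ hmem
      obtain ⟨x, hx, hx2⟩ := hAC C hC
      exact hx.2 ⟨_, hmem, hx2⟩
  · -- a nonempty approximation
    obtain ⟨hn, hl, hsB, hmax⟩ := depth_some ha hd
    obtain ⟨_, _, hs, _, hbel⟩ := apx_of_raw ha
    have hj : j = s.card := by
      have h1 : rRaw j A0 = some (l, s) := by rw [← ha, ← hA0]; rfl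
      have hj0 : j ≠ 0 := by
        intro h
        rw [h, rRaw_zero] at h1
        exact absurd h1 (by simp)
      rw [rRaw_pos hj0] at h1
      have h2 : init A0.carrier j = s := congrArg Prod.snd (Option.some.inj h1)
      rw [← h2, init_card A0.infinite]
    subst hj
    let T : Set ℕ := B.carrier ∩ {x | ∀ y ∈ s, y < x}
    have hT : T.Infinite := tail_infinite B.infinite s
    let good : ℕ → Prop := fun x => ∃ o ∈ O, o.1 = some (l, insert x s)
    have hdich : ({x ∈ T | good x}).Infinite ∨ ({x ∈ T | ¬ good x}).Infinite := by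
      by_contra hcon
      push Not at hcon
      apply hT
      refine (hcon.1.union hcon.2).subset ?_
      intro x hx
      by_cases h : good x
      · exact Or.inl ⟨hx, h⟩
      · exact Or.inr ⟨hx, h⟩
    have hgen : ∀ H : Set ℕ, H.Infinite → H ⊆ T →
        ∃ A ∈ basic ptLE apx (apx n B) B, ∀ C ∈ basic ptLE apx a A, ∃ x ∈ H,
          (apx (s.card + 1) C).1 = some (l, insert x s) := by
      intro H hH hHT
      obtain ⟨A, hA1, hA2⟩ := exists_pt B.lab (init B.carrier n) H hH
        (below_mono B.below (init_subset B.infinite n))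
        (below_mono B.below (fun x hx => (hHT hx).1))
      refine ⟨A, ?_, ?_⟩
      · rw [mem_basic_iff (apx_raw_of_pos hn B)]
        refine ⟨⟨?_, ?_⟩, hA1, ?_, ?_⟩
        · rw [hA1]; exact labLE_refl _
        · rw [hA2]
          rintro x (hx | hx)
          · exact init_subset B.infinite n hx
          · exact (hHT hx).1
        · rw [hA2]; exact Set.subset_union_left
        · rw [hA2]
          rintro x (hx | hx) y hy hxy
          · exact hx
          · obtain ⟨z, hz, hyz⟩ := hmax y hy
            exact absurd ((hHT hx).2 z hz) (by omega)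
      · intro C hC
        rw [mem_basic_iff ha] at hC
        obtain ⟨hCA, hCl, hCs, hCi⟩ := hC
        have hsC : init C.carrier s.card = s := init_unique C.infinite hCs hCi
        have h1 : s ⊆ init C.carrier (s.card + 1) := by
          conv_lhs => rw [← hsC]
          exact init_mono _ (Nat.le_succ _)
        have h2 : (init C.carrier (s.card + 1)).card = s.card + 1 := init_card C.infinite _
        have h3 : (init C.carrier (s.card + 1) \ s).card = 1 := by
          rw [Finset.card_sdiff_of_subset h1, h2]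
          omega
        obtain ⟨x, hx⟩ := Finset.card_eq_one.1 h3
        have hxm : x ∈ init C.carrier (s.card + 1) \ s := by rw [hx]; simp
        have hxC : x ∈ C.carrier := init_subset C.infinite _ (Finset.mem_sdiff.1 hxm).1
        have hxs : x ∉ s := (Finset.mem_sdiff.1 hxm).2
        refine ⟨x, ?_, ?_⟩
        · have hxA := hCA.2 hxC
          rw [hA2] at hxA
          rcases hxA with hxA | hxA
          · obtain ⟨z, hz, hxz⟩ := hmax x hxA
            exact absurd (hCi x hxC z hz hxz) hxs
          · exact hxA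
        · show rRaw (s.card + 1) C = _
          rw [rRaw_pos (Nat.succ_ne_zero _), hCl]
          congr 2
          rw [← Finset.sdiff_union_of_subset h1, hx]
          rfl
    rcases hdich with hd1 | hd1
    · obtain ⟨A, hA, hAC⟩ := hgen _ hd1 (Set.sep_subset _ _)
      refine ⟨A, hA, Or.inl ?_⟩
      rintro _ ⟨C, hC, rfl⟩
      obtain ⟨x, hx, hx2⟩ := hAC C hC
      obtain ⟨o, ho, ho2⟩ := hx.2
      have : apx (s.card + 1) C = o := Subtype.ext (hx2.trans ho2.symm)
      rw [this]
      exact ho
    · obtain ⟨A, hA, hAC⟩ := hgen _ hd1 (Set.sep_subset _ _)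
      refine ⟨A, hA, Or.inr ?_⟩
      rintro _ ⟨C, hC, rfl⟩ hmem
      obtain ⟨x, hx, hx2⟩ := hAC C hC
      exact hx.2 ⟨_, hmem, hx2⟩

theorem space_closed : @IsClosed (ℕ → Approx)
    (@Pi.topologicalSpace ℕ (fun _ => Approx) (fun _ => ⊥))
    (Set.range fun (A : Pt) (n : ℕ) => apx n A) := by
  let _ : TopologicalSpace Approx := ⊥
  have _ : DiscreteTopology Approx := ⟨rfl⟩
  apply isClosed_of_closure_subset
  intro s hs
  have h1 : ∀ N : ℕ, ∃ A : Pt, ∀ n ≤ N, apx n A = s n := by
    intro N
    have hopen : IsOpen {t : ℕ → Approx | ∀ n ∈ Finset.range (N + 1), t n = s n} := by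
      have : {t : ℕ → Approx | ∀ n ∈ Finset.range (N + 1), t n = s n} =
          ⋂ n ∈ Finset.range (N + 1), {t : ℕ → Approx | t n = s n} := by
        ext t
        simp
      rw [this]
      apply isOpen_biInter_finset
      intro n _
      have hc : Continuous (fun t : ℕ → Approx => t n) := continuous_apply n
      exact (isOpen_discrete ({s n} : Set Approx)).preimage hc
    obtain ⟨t, ht, A, rfl⟩ := mem_closure_iff.1 hs _ hopen (by simp)
    exact ⟨A, fun n hn => ht n (Finset.mem_range.2 (by omega))⟩
  choose D hD using h1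
  have hlab : ∀ n N, n ≠ 0 → n ≤ N → (D n).lab = (D N).lab ∧
      init (D n).carrier n = init (D N).carrier n := by
    intro n N hn hnN
    have e : apx n (D n) = apx n (D N) := by rw [hD n n le_rfl, hD N n hnN]
    rw [apx_eq_iff, rRaw_pos hn, rRaw_pos hn] at e
    have e' := Option.some.inj e
    exact ⟨congrArg Prod.fst e', congrArg Prod.snd e'⟩
  let C : Set ℕ := {x | ∃ N, N ≠ 0 ∧ x ∈ init (D N).carrier N}
  have hsub : ∀ n, n ≠ 0 → (init (D n).carrier n : Set ℕ) ⊆ C := fun n hn x hx => ⟨n, hn, hx⟩
  have hC : C.Infinite := by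
    intro hfin
    have h2 := Finset.card_le_card (s := init (D (hfin.toFinset.card + 1)).carrier
      (hfin.toFinset.card + 1)) (t := hfin.toFinset) (by
        intro x hx
        rw [Set.Finite.mem_toFinset]
        exact hsub _ (Nat.succ_ne_zero _) hx)
    rw [init_card (D _).infinite] at h2
    omega
  have hinit : ∀ n, n ≠ 0 → init C n = init (D n).carrier n := by
    intro n hn
    have := init_unique (s := init (D n).carrier n) hC (hsub n hn) (by
      rintro x ⟨N, hN, hx⟩ y hy hxy
      have hn' := hlab n (max n N) hn (le_max_left _ _)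
      have hN' := hlab N (max n N) hN (le_max_right _ _)
      rw [hN'.2] at hx
      rw [hn'.2] at hy ⊢
      exact init_initial (D _).infinite n (init_subset (D _).infinite N hx) hy hxy)
    rwa [init_card (D n).infinite] at this
  have hbel : Below (D 1).lab C := by
    rintro k hk x ⟨N, hN, hx⟩
    have := hlab 1 N one_ne_zero (by omega)
    exact (D N).below k (this.1 ▸ hk) x (init_subset (D N).infinite N hx)
  refine ⟨⟨(D 1).lab, C, hC, hbel⟩, ?_⟩
  funext n
  rw [← hD n n le_rfl, apx_eq_iff]
  by_cases hn : n = 0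
  · rw [hn, rRaw_zero, rRaw_zero]
  · rw [rRaw_pos hn, rRaw_pos hn]
    show some ((D 1).lab, init C n) = _
    rw [hinit n hn, (hlab 1 n one_ne_zero (by omega)).1]

theorem isTRS : IsTopologicalRamseySpace ptLE apx where
  nonempty := ⟨⟨Sum.inr 0, Set.univ, Set.infinite_univ, fun k hk => by simp at hk⟩⟩
  refl := ptLE_refl
  trans _ _ _ := ptLE_trans
  surj a := by
    obtain ⟨n, A, hA⟩ := a.2
    exact ⟨n, A, Subtype.ext hA⟩
  a1 := a1
  a234 := ⟨apxLE, a2, a3, a4⟩
  closed := space_closed

theorem star_trans {A B C : Pt} (h : ptLEStar A B) (h' : ptLEStar B C) : ptLEStar A C := by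
  refine ⟨labLE_trans h.1 h'.1, (h.2.union h'.2).subset ?_⟩
  intro x hx
  by_cases hB : x ∈ B.carrier
  · exact Or.inr ⟨hB, hx.2⟩
  · exact Or.inl ⟨hx.1, hB⟩

theorem star_of_le {A B : Pt} (h : ptLE A B) : ptLEStar A B := by
  refine ⟨h.1, ?_⟩
  rw [Set.sdiff_eq_empty.2 h.2]
  exact Set.finite_empty

theorem star_refl (A : Pt) : ptLEStar A A := star_of_le (ptLE_refl A)

theorem labLE_inl {l : Label} {k : ℕ} (h : labLE l (Sum.inl k)) : l = Sum.inl k := by
  rcases l with k' | m
  · have : k' = k := h
    rw [this]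
  · exact h.elim

/-- A member of the space below `x` with a prescribed natural number label. -/
theorem exists_below (x : Pt) (k : ℕ) (h : labLE (Sum.inl k) x.lab) :
    ∃ z, ptLE z x ∧ z.lab = Sum.inl k := by
  refine ⟨⟨Sum.inl k, x.carrier \ Set.Iic k, x.infinite.sdiff (Set.finite_Iic k), ?_⟩,
    ⟨h, Set.sdiff_subset⟩, rfl⟩
  intro k' hk' y hy
  have : k = k' := by simpa using hk'
  rw [← this]
  exact not_le.1 hy.2

theorem star_of_sep {x y : Pt}
    (h : ∀ z, ptLE z x → ∃ w, ptLEStar w z ∧ ptLEStar w y) : ptLEStar x y := by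
  constructor
  · rcases hx : x.lab with k | n
    · obtain ⟨w, hw1, hw2⟩ := h x (ptLE_refl x)
      have h1 := hw1.1
      rw [hx] at h1
      have h2 := hw2.1
      rwa [labLE_inl h1] at h2
    · rcases hy : y.lab with k' | m
      · obtain ⟨k, hk1, hk2⟩ : ∃ k : ℕ, k ≠ n ∧ k ≠ k' := ⟨n + k' + 1, by omega, by omega⟩
        obtain ⟨z, hz, hzl⟩ := exists_below x k (by rw [hx]; exact hk1)
        obtain ⟨w, hw1, hw2⟩ := h z hz
        have h1 := hw1.1
        rw [hzl] at h1
        have h2 := hw2.1
        rw [labLE_inl h1, hy] at h2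
        exact absurd h2 hk2
      · by_contra hne
        have hne' : m ≠ n := fun h => hne h.symm
        obtain ⟨z, hz, hzl⟩ := exists_below x m (by rw [hx]; exact hne')
        obtain ⟨w, hw1, hw2⟩ := h z hz
        have h1 := hw1.1
        rw [hzl] at h1
        have h2 := hw2.1
        rw [labLE_inl h1, hy] at h2
        exact h2 rfl
  · by_contra hinf
    obtain ⟨w, hw1, hw2⟩ := h ⟨x.lab, x.carrier \ y.carrier, hinf,
      below_mono x.below Set.sdiff_subset⟩ ⟨labLE_refl _, Set.sdiff_subset⟩
    apply w.infinite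
    refine (hw1.2.union hw2.2).subset ?_
    intro a ha
    by_cases hay : a ∈ y.carrier
    · exact Or.inl ⟨ha, fun h' => h'.2 hay⟩
    · exact Or.inr ⟨ha, hay⟩

theorem sep_of_star {x y : Pt} (h : ptLEStar x y) (z : Pt) (hz : ptLEStar z x) :
    ∃ w, ptLE w z ∧ ptLE w y := by
  have hzy := star_trans hz h
  refine ⟨⟨z.lab, z.carrier ∩ y.carrier, ?_, below_mono z.below Set.inter_subset_left⟩,
    ⟨labLE_refl _, Set.inter_subset_left⟩, ⟨hzy.1, Set.inter_subset_right⟩⟩
  intro hfin
  apply z.infinite
  refine (hfin.union hzy.2).subset ?_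
  intro a ha
  by_cases hay : a ∈ y.carrier
  · exact Or.inl ⟨ha, hay⟩
  · exact Or.inr ⟨ha, hay⟩

theorem sepLE_eq : sepLE ptLE = sepLE ptLEStar := by
  funext x y
  apply propext
  constructor
  · intro h z hz
    have h1 : ptLEStar x y := star_of_sep fun z hz => by
      obtain ⟨w, hw1, hw2⟩ := h z hz
      exact ⟨w, star_of_le hw1, star_of_le hw2⟩
    obtain ⟨w, hw1, hw2⟩ := sep_of_star h1 z hz
    exact ⟨w, star_of_le hw1, star_of_le hw2⟩
  · intro h z hz
    have h1 : ptLEStar x y := star_of_sep fun z hz => h z (star_of_le hz)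
    exact sep_of_star h1 z (star_of_le hz)

theorem sep_iso : Nonempty (sepQuotLE ptLE ≃r sepQuotLE ptLEStar) := by
  unfold sepQuotLE SepQuot
  rw [sepLE_eq]
  exact ⟨RelIso.refl _⟩

theorem sigma_closed (f : ℕ → Pt) (hf : ∀ n, ptLEStar (f (n + 1)) (f n)) :
    ∃ Y, ∀ n, ptLEStar Y (f n) := by
  have hmono : ∀ n m, n ≤ m → ptLEStar (f m) (f n) := by
    intro n m hnm
    induction m, hnm using Nat.le_induction with
    | base => exact star_refl _
    | succ m _ ih => exact star_trans (hf m) ih
  obtain ⟨l, hl⟩ : ∃ l : Label, ∀ n, labLE l (f n).lab := by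
    by_cases h : ∃ n k, (f n).lab = Sum.inl k
    · obtain ⟨n0, k, hk⟩ := h
      refine ⟨Sum.inl k, fun n => ?_⟩
      have h1 := (hmono n0 (max n0 n) (le_max_left _ _)).1
      rw [hk] at h1
      have h2 := (hmono n (max n0 n) (le_max_right _ _)).1
      rwa [labLE_inl h1] at h2
    · refine ⟨(f 0).lab, fun n => ?_⟩
      have h1 := (hmono 0 n (Nat.zero_le n)).1
      rcases h2 : (f n).lab with k | m
      · exact absurd ⟨n, k, h2⟩ h
      · rcases h3 : (f 0).lab with k | m'
        · exact absurd ⟨0, k, h3⟩ h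
        · rw [h2, h3] at h1
          exact (Eq.symm h1 : m' = m)
  obtain ⟨K, hK⟩ : ∃ K : ℕ, ∀ k, l = Sum.inl k → k ≤ K := by
    rcases l with k | m
    · exact ⟨k, fun k' hk' => by
        have : k = k' := by simpa using hk'
        omega⟩
    · exact ⟨0, fun k' hk' => by simp at hk'⟩
  have hD : ∀ n m : ℕ, ∃ x, (∀ i ≤ n, x ∈ (f i).carrier) ∧ m < x := by
    intro n m
    have hfin : (⋃ i ∈ Finset.range (n + 1), ((f n).carrier \ (f i).carrier)).Finite := by
      apply Set.Finite.biUnion (Finset.finite_toSet _)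
      intro i hi
      have hi' : i < n + 1 := by simpa using hi
      exact (hmono i n (by omega)).2
    obtain ⟨x, hx1, hx2⟩ := (((f n).infinite.sdiff hfin).sdiff (Set.finite_Iic m)).nonempty
    refine ⟨x, fun i hi => ?_, not_le.1 hx2⟩
    by_contra hxi
    apply hx1.2
    simp only [Set.mem_iUnion]
    exact ⟨i, Finset.mem_range.2 (by omega), hx1.1, hxi⟩
  choose F hF1 hF2 using hD
  let g : ℕ → ℕ := fun n => Nat.rec (F 0 K) (fun n y => F (n + 1) y) n
  have hg0 : g 0 = F 0 K := rfl
  have hgs : ∀ n, g (n + 1) = F (n + 1) (g n) := fun n => rfl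
  have hg : StrictMono g := strictMono_nat_of_lt_succ fun n => by
    rw [hgs]; exact hF2 _ _
  have hgK : ∀ n, K < g n := by
    intro n
    calc K < g 0 := by rw [hg0]; exact hF2 _ _
      _ ≤ g n := hg.monotone (Nat.zero_le n)
  have hgm : ∀ n, ∀ i ≤ n, g n ∈ (f i).carrier := by
    intro n
    cases n with
    | zero => intro i hi; rw [hg0]; exact hF1 0 K i hi
    | succ n => intro i hi; rw [hgs]; exact hF1 _ _ i hi
  refine ⟨⟨l, Set.range g, Set.infinite_range_of_injective hg.injective, ?_⟩, fun n => ⟨hl n, ?_⟩⟩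
  · rintro k hk _ ⟨n, rfl⟩
    exact lt_of_le_of_lt (hK k hk) (hgK n)
  · refine ((Set.finite_Iio n).image g).subset ?_
    rintro _ ⟨⟨m, rfl⟩, hm⟩
    refine ⟨m, ?_, rfl⟩
    by_contra hmn
    exact hm (hgm m n (not_lt.1 hmn))

theorem isSigmaClosedTRS : IsSigmaClosedTRS ptLE ptLEStar apx where
  trs := isTRS
  star_refl := star_refl
  star_trans _ _ _ := star_trans
  coarsens _ _ := star_of_le
  sigma_closed := sigma_closed
  sep_iso := sep_iso

/-! ### The cardinals of the space -/

/-- The point `(∞ₙ, ω)`. -/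
def top (n : ℕ) : Pt := ⟨Sum.inr n, Set.univ, Set.infinite_univ, fun k hk => by simp at hk⟩

theorem top_injective : Function.Injective top := by
  intro m n h
  have h1 : (top m).lab = (top n).lab := by rw [h]
  simpa [top] using h1

theorem top_sfip : SFIP ptLEStar (Set.range top) := by
  intro G hG hGs
  have h1 : (top ⁻¹' G).Finite := hG.preimage top_injective.injOn
  obtain ⟨k, hk⟩ := h1.exists_notMem
  refine ⟨⟨Sum.inl k, (Set.Iic k)ᶜ, (Set.finite_Iic k).infinite_compl, ?_⟩, ?_⟩
  · intro k' hk' x hx
    have : k = k' := by simpa using hk'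
    rw [← this]
    exact not_le.1 hx
  · intro X hX
    obtain ⟨n, rfl⟩ := hGs hX
    refine ⟨?_, ?_⟩
    · show k ≠ n
      rintro rfl
      exact hk hX
    · simp [top]

theorem top_no_pseudo : ¬ ∃ Y, IsPseudo ptLEStar (Set.range top) Y := by
  rintro ⟨Y, hY⟩
  rcases h : Y.lab with k | m
  · have h1 := (hY (top k) ⟨k, rfl⟩).1
    rw [h] at h1
    exact h1 rfl
  · have h1 := (hY (top (m + 1)) ⟨m + 1, rfl⟩).1
    rw [h] at h1
    have h2 : m = m + 1 := h1
    omega

theorem pR_eq : pR ptLEStar = ℵ₀ := by
  have hmem : ℵ₀ ∈ {κ | ∃ F : Set Pt, #F = κ ∧ SFIP ptLEStar F ∧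
      ¬ ∃ Y, IsPseudo ptLEStar F Y} :=
    ⟨Set.range top, by rw [mk_range_eq _ top_injective, mk_nat], top_sfip, top_no_pseudo⟩
  apply le_antisymm
  · exact csInf_le' hmem
  · apply le_csInf ⟨_, hmem⟩
    rintro κ ⟨F, rfl, hF1, hF2⟩
    by_contra hlt
    rw [not_le, lt_aleph0_iff_set_finite] at hlt
    exact hF2 (hF1 F hlt subset_rfl)

theorem tower_uncountable (F : Set Pt) (hF : IsTower ptLEStar F) : ℵ₀ < #F := by
  by_contra hle
  rw [not_lt, le_aleph0_iff_set_countable] at hle
  apply hF.2
  rcases F.eq_empty_or_nonempty with rfl | hne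
  · exact ⟨top 0, fun X hX => hX.elim⟩
  · obtain ⟨e, rfl⟩ := hle.exists_eq_range hne
    classical
    let f : ℕ → Pt := fun n => Nat.rec (e 0)
      (fun n y => if ptLEStar y (e (n + 1)) then y else e (n + 1)) n
    have hf0 : f 0 = e 0 := rfl
    have hfs : ∀ n, f (n + 1) = if ptLEStar (f n) (e (n + 1)) then f n else e (n + 1) :=
      fun n => rfl
    have hfr : ∀ n, f n ∈ Set.range e := by
      intro n
      induction n with
      | zero => exact ⟨0, rfl⟩
      | succ n ih =>
        rw [hfs]
        split_ifs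
        · exact ih
        · exact ⟨n + 1, rfl⟩
    have hstep : ∀ n, ptLEStar (f (n + 1)) (f n) ∧ ptLEStar (f (n + 1)) (e (n + 1)) := by
      intro n
      rw [hfs]
      split_ifs with h
      · exact ⟨star_refl _, h⟩
      · exact ⟨(hF.1 _ (hfr n) _ ⟨n + 1, rfl⟩).resolve_left h, star_refl _⟩
    obtain ⟨Y, hY⟩ := sigma_closed f (fun n => (hstep n).1)
    refine ⟨Y, ?_⟩
    rintro _ ⟨n, rfl⟩
    cases n with
    | zero => exact hY 0
    | succ n => exact star_trans (hY (n + 1)) (hstep n).2

theorem exists_tower : ∃ F : Set Pt, IsTower ptLEStar F := by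
  have hmax := maxChain_spec (r := ptLEStar)
  refine ⟨maxChain ptLEStar, ?_, ?_⟩
  · intro X hX Y hY
    by_cases h : X = Y
    · rw [h]; exact Or.inl (star_refl Y)
    · exact hmax.1 hX hY h
  · rintro ⟨Y, hY⟩
    -- split `Y`
    let g : ℕ → ℕ := Nat.nth (· ∈ Y.carrier)
    have hgi : Function.Injective g := Nat.nth_injective (p := (· ∈ Y.carrier)) Y.infinite
    have hgY : ∀ n, g n ∈ Y.carrier := fun n => Nat.nth_mem_of_infinite Y.infinite n
    let Y' : Pt := ⟨Y.lab, Set.range (fun n => g (2 * n)),
      Set.infinite_range_of_injective (fun a b h => by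
        have := hgi h
        omega), by
        rintro k hk _ ⟨n, rfl⟩
        exact Y.below k hk _ (hgY _)⟩
    have hY' : ptLEStar Y' Y := star_of_le ⟨labLE_refl _, by
      rintro _ ⟨n, rfl⟩
      exact hgY _⟩
    have hchain : IsChain ptLEStar (insert Y' (maxChain ptLEStar)) := by
      apply hmax.1.insert
      intro X hX _
      exact Or.inl (star_trans hY' (hY X hX))
    have heq := hmax.2 hchain (Set.subset_insert _ _)
    have hmem : Y' ∈ maxChain ptLEStar := by
      rw [heq]; exact Set.mem_insert _ _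
    have hfin := (hY Y' hmem).2
    have hinf : (Set.range (fun n => g (2 * n + 1))).Infinite :=
      Set.infinite_range_of_injective (fun a b h => by
        have := hgi h
        omega)
    apply hinf
    refine hfin.subset ?_
    rintro _ ⟨n, rfl⟩
    refine ⟨hgY _, ?_⟩
    rintro ⟨m, hm⟩
    have := hgi hm
    omega

theorem aleph_one_le_tR : ℵ₁ ≤ tR ptLEStar := by
  obtain ⟨F₀, hF₀⟩ := exists_tower
  have hne : {κ | ∃ F : Set Pt, #F = κ ∧ IsTower ptLEStar F}.Nonempty := ⟨_, F₀, rfl, hF₀⟩
  apply le_csInf hne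
  rintro κ ⟨F, rfl, hF⟩
  have := tower_uncountable F hF
  rw [← succ_aleph0]
  exact Order.succ_le_of_lt this

/-- There is a sigma-closed topological Ramsey space whose pseudointersection number is `ℵ₀` and
whose tower number is at least `ℵ₁` (and which has a tower). In particular the pseudointersection
number and the tower number of this space differ. -/
theorem result : ∃ (R AR : Type) (le leStar : R → R → Prop) (r : ℕ → R → AR),
    IsSigmaClosedTRS le leStar r ∧ pR leStar ≠ tR leStar ∧
      pR leStar = ℵ₀ ∧ ℵ₁ ≤ tR leStar ∧ ∃ F : Set R, IsTower leStar F := by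
  refine ⟨Pt, Approx, ptLE, ptLEStar, apx, isSigmaClosedTRS, ?_, pR_eq, aleph_one_le_tR,
    exists_tower⟩
  rw [pR_eq]
  exact (lt_of_lt_of_le aleph0_lt_aleph_one aleph_one_le_tR).ne

end Pool.Agent.Results.MP_fdc1ac_lc.CountablePseudo
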